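import Mathlib
import Pool.Agent.PCPHard.Final

/-!
# Hardest two-pair instances of the Post correspondence problem (Lorentz)

For every `n ≥ 1` the instance `I_n = {(1^n 0, 1), (1, 0 1^n)}` is a hardest instance of
`PCP[2, n+1]`: its optimal length is `2n`, and every solvable size-2 instance, over any alphabet,
all of whose words are nonempty and have length at most `n + 1`, has a solution of length at
most `2n`.
-/

namespace Pool.Agent.Results.MP_352312_lc.Lorentz

/-- An instance of size `s` over the alphabet `α`: a list of `s` pairs (top word, bottom word). -/
abbrev Inst (α : Type) (s : ℕ) : Type := Fin s → List α × List α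

/-- A solution: a nonempty finite sequence of indices whose concatenated top words equal its
concatenated bottom words. -/
def IsSolution {α : Type} {s : ℕ} (I : Inst α s) (l : List (Fin s)) : Prop :=
  l ≠ [] ∧ (l.map fun i => (I i).1).flatten = (l.map fun i => (I i).2).flatten

/-- An instance is solvable if it has a solution. -/
def Solvable {α : Type} {s : ℕ} (I : Inst α s) : Prop := ∃ l, IsSolution I l

/-- The optimal length of a (solvable) instance: the least length of a solution. -/
noncomputable def optLength {α : Type} {s : ℕ} (I : Inst α s) : ℕ :=
  sInf {k | ∃ l, IsSolution I l ∧ l.length = k}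

/-- `PCP[s,w]` over the alphabet `α`: the instances of size `s` in which every word is nonempty
and has length at most `w`. -/
def PCPSet (α : Type) (s w : ℕ) : Set (Inst α s) :=
  {I | ∀ i, (I i).1 ≠ [] ∧ (I i).2 ≠ [] ∧ (I i).1.length ≤ w ∧ (I i).2.length ≤ w}

/-- `I` is a hardest instance of the binary `PCP[s,w]`: it is a solvable member and its optimal
length is maximal among all solvable members. -/
def Hardest (s w : ℕ) (I : Inst Bool s) : Prop :=
  I ∈ PCPSet Bool s w ∧ Solvable I ∧ ∀ J ∈ PCPSet Bool s w, Solvable J → optLength J ≤ optLength I

/-- The instance `I_n = {(1^n 0, 1), (1, 0 1^n)}` (`true` is the letter `1`, `false` is `0`). -/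
def lorentz (n : ℕ) : Inst Bool 2 :=
  ![(List.replicate n true ++ [false], [true]), ([true], false :: List.replicate n true)]

open PCPHard

/-- index of a letter -/
private def idx (c : Bool) : Fin 2 := if c = true then 0 else 1

private def letter (i : Fin 2) : Bool := if i = 0 then true else false

private theorem idx_letter (i : Fin 2) : idx (letter i) = i := by
  fin_cases i <;> rfl

private theorem letter_idx (c : Bool) : letter (idx c) = c := by
  cases c <;> rfl

private theorem mor_idx {α : Type} (f : Fin 2 → List α) (w : List Bool) :
    mor (f 0) (f 1) w = ((w.map idx).map f).flatten := by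
  rw [List.map_map, mor, List.flatMap_def]
  congr 1
  apply List.map_congr_left
  intro c _
  cases c <;> rfl

private theorem mor_letter {α : Type} (f : Fin 2 → List α) (l : List (Fin 2)) :
    mor (f 0) (f 1) (l.map letter) = (l.map f).flatten := by
  have h : (l.map letter).map idx = l := by
    rw [List.map_map]
    calc l.map (idx ∘ letter) = l.map id :=
          List.map_congr_left (fun i _ => idx_letter i)
      _ = l := List.map_id l
  rw [mor_idx, h]

private theorem upper {α : Type} {n : ℕ} (hn : 1 ≤ n) (J : Inst α 2)
    (hJ : J ∈ PCPSet α 2 (n + 1)) (hs : Solvable J) : ∃ l, IsSolution J l ∧ l.length ≤ 2 * n := by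
  obtain ⟨l, hl, hsol⟩ := hs
  have h0 := hJ 0
  have h1 := hJ 1
  obtain ⟨w, hw, hw2, hw3⟩ := PCPHard.bound (J 0).1 (J 1).1 (J 0).2 (J 1).2 h0.1 h1.1 h0.2.1
    h1.2.1 ⟨l.map letter, by simpa using hl, by
      rw [mor_letter (fun i => (J i).1), mor_letter (fun i => (J i).2)]; exact hsol⟩ (n + 1)
    h0.2.2.1 h1.2.2.1 h0.2.2.2 h1.2.2.2
  refine ⟨w.map idx, ⟨by simpa using hw, ?_⟩, ?_⟩
  · rw [mor_idx (fun i => (J i).1), mor_idx (fun i => (J i).2)] at hw2
    exact hw2
  · rw [List.length_map]
    omega

private theorem lorentz_mem {n : ℕ} : lorentz n ∈ PCPSet Bool 2 (n + 1) := by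
  intro i
  fin_cases i <;> simp [lorentz]

private theorem pow_comm (n m : ℕ) :
    mor (List.replicate n true ++ [false]) [true] (List.replicate m true ++ List.replicate n false)
      = mor [true] (false :: List.replicate n true)
        (List.replicate n true ++ List.replicate m false) := by
  induction m with
  | zero =>
    have h1 : ∀ k : ℕ, mor (List.replicate n true ++ [false]) [true] (List.replicate k false)
        = List.replicate k true := by
      intro k
      induction k with
      | zero => rfl
      | succ k ih =>
        rw [List.replicate_succ, mor_cons, ih, List.replicate_succ]; rfl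
    have h2 : ∀ k : ℕ, mor [true] (false :: List.replicate n true) (List.replicate k true)
        = List.replicate k true := by
      intro k
      induction k with
      | zero => rfl
      | succ k ih =>
        rw [List.replicate_succ, mor_cons, ih]; rfl
    simp only [List.replicate_zero, List.nil_append, List.append_nil]
    rw [h1, h2]
  | succ m ih =>
    have h2 : ∀ k : ℕ, mor [true] (false :: List.replicate n true) (List.replicate k true)
        = List.replicate k true := by
      intro k
      induction k with
      | zero => rfl
      | succ k ih =>
        rw [List.replicate_succ, mor_cons, ih]; rfl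
    rw [List.replicate_succ, List.cons_append, mor_cons, ih, List.replicate_succ, mor_append,
      mor_append, mor_cons, h2]
    simp [blk]

private theorem lorentz_solution (n : ℕ) (hn : 1 ≤ n) :
    IsSolution (lorentz n) ((List.replicate n true ++ List.replicate n false).map idx) := by
  refine ⟨?_, ?_⟩
  · intro h
    have := congrArg List.length h
    simp at this
    omega
  · have h := pow_comm n n
    have h1 := mor_idx (fun i => (lorentz n i).1) (List.replicate n true ++ List.replicate n false)
    have h2 := mor_idx (fun i => (lorentz n i).2) (List.replicate n true ++ List.replicate n false)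
    rw [← h1, ← h2]
    exact h

private theorem first_zero (w : List Bool) (h : false ∈ w) :
    ∃ (j : ℕ) (w' : List Bool), w = List.replicate j true ++ false :: w' := by
  induction w with
  | nil => simp at h
  | cons c w ih =>
    cases c
    · exact ⟨0, w, rfl⟩
    · have h3 : false ∈ w := by simpa using h
      obtain ⟨j, w', h5⟩ := ih h3
      exact ⟨j + 1, w', by rw [List.replicate_succ, List.cons_append, ← h5]⟩

private theorem lower (n : ℕ) (w : List Bool) (hw : w ≠ [])
    (h : mor (List.replicate n true ++ [false]) [true] w
      = mor [true] (false :: List.replicate n true) w) : 2 * n ≤ w.length := by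
  -- number of zeros
  have hc := congrArg (List.count false) h
  rw [count_mor, count_mor] at hc
  have e1 : (List.replicate n true ++ [false]).count false = 1 := by
    rw [List.count_append, List.count_replicate]; simp
  have e2 : ([true] : List Bool).count false = 0 := by simp
  have e3 : (false :: List.replicate n true).count false = 1 := by
    rw [List.count_cons, List.count_replicate]; simp
  rw [e1, e2, e3] at hc
  have hlen := List.count_true_add_count_false w
  -- leading ones
  have hn : n ≤ w.count true := by
    by_contra hcon
    push Not at hcon
    obtain ⟨j, w', hw'⟩ : ∃ (j : ℕ) (w' : List Bool), w = List.replicate j true ++ false :: w' := by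
      apply first_zero
      rw [← List.count_pos_iff]
      have : 0 < w.length := List.length_pos_of_ne_nil hw
      omega
    have hj : j ≤ w.count true := by
      rw [hw', List.count_append, List.count_replicate]; simp
    have h2 : ∀ k : ℕ, mor [true] (false :: List.replicate n true) (List.replicate k true)
        = List.replicate k true := by
      intro k
      induction k with
      | zero => rfl
      | succ k ih =>
        rw [List.replicate_succ, mor_cons, ih]; rfl
    -- the bottom word has a zero at position `j`
    have hb : (mor [true] (false :: List.replicate n true) w)[j]? = some false := by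
      rw [hw', mor_append, h2, mor_cons]
      rw [List.getElem?_append_right (by simp)]
      simp [blk]
    rw [← h] at hb
    rcases Nat.eq_zero_or_pos j with hj0 | hj0
    · rw [hw', hj0, List.replicate_zero, List.nil_append, mor_cons] at hb
      simp [blk] at hb
    · obtain ⟨j', rfl⟩ : ∃ j', j = j' + 1 := ⟨j - 1, by omega⟩
      rw [hw', List.replicate_succ, List.cons_append, mor_cons, blk, if_pos rfl,
        List.append_assoc, List.getElem?_append_left (by rw [List.length_replicate]; omega),
        List.getElem?_replicate_of_lt (by omega)] at hb
      simp at hb
  omega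

/-- **Lorentz's conjecture.**  For every `n ≥ 1` the instance `I_n` is a hardest instance of
`PCP[2, n+1]`, its optimal length is `2n`, and over every alphabet every solvable instance of
`PCP[2, n+1]` has a solution of length at most `2n`. -/
theorem result : ∀ n : ℕ, 1 ≤ n →
    Hardest 2 (n + 1) (lorentz n) ∧ optLength (lorentz n) = 2 * n ∧
      ∀ (α : Type), ∀ J ∈ PCPSet α 2 (n + 1), Solvable J →
        ∃ l, IsSolution J l ∧ l.length ≤ 2 * n := by
  intro n hn
  have hopt : optLength (lorentz n) = 2 * n := by
    have hmem : 2 * n ∈ {k | ∃ l, IsSolution (lorentz n) l ∧ l.length = k} := by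
      refine ⟨_, lorentz_solution n hn, ?_⟩
      rw [List.length_map, List.length_append, List.length_replicate, List.length_replicate]
      omega
    apply le_antisymm (Nat.sInf_le hmem)
    obtain ⟨l, ⟨hl1, hl2⟩, hl3⟩ := Nat.sInf_mem
      (s := {k | ∃ l, IsSolution (lorentz n) l ∧ l.length = k}) ⟨2 * n, hmem⟩
    have h1 := mor_letter (fun i => (lorentz n i).1) l
    have h2 := mor_letter (fun i => (lorentz n i).2) l
    rw [← h1, ← h2] at hl2
    have h3 := lower n (l.map letter) (by simpa using hl1) hl2
    rw [List.length_map] at h3
    show 2 * n ≤ sInf {k | ∃ l, IsSolution (lorentz n) l ∧ l.length = k}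
    rw [← hl3]; exact h3
  refine ⟨⟨lorentz_mem, ⟨_, lorentz_solution n hn⟩, fun J hJ hs => ?_⟩, hopt,
    fun α J hJ hs => upper hn J hJ hs⟩
  obtain ⟨l, h1, h2⟩ := upper hn J hJ hs
  rw [hopt]
  have h3 : l.length ∈ {k | ∃ l, IsSolution J l ∧ l.length = k} := ⟨l, h1, rfl⟩
  exact (Nat.sInf_le h3).trans h2

end Pool.Agent.Results.MP_352312_lc.Lorentz
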